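import Pool.Agent.H47.L.R_seed8.Helper346.Bra.Defs
import Pool.Agent.H47.L.R_seed8.Helper346.Bra.SA

set_option autoImplicit false

open scoped TensorProduct

namespace Pool.Agent.Helper346.Bra



theorem geom_zero_aux {R : Type*} [CommRing R] [IsDomain R] {l : ℕ} {ζ : R}
    (hζ : IsPrimitiveRoot ζ l) (i m : ℕ) (hi : i < l) (hm : m < l) (him : i ≠ m) :
    ∑ k ∈ Finset.range l, (ζ ^ (i + (l - m))) ^ k = 0 := by
  have h1 := geom_sum_mul (ζ ^ (i + (l - m))) l
  have h2 : (ζ ^ (i + (l - m))) ^ l = 1 := by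
    rw [← pow_mul, mul_comm, pow_mul, hζ.pow_eq_one, one_pow]
  rw [h2, sub_self] at h1
  rcases mul_eq_zero.mp h1 with h | h
  · exact h
  · exfalso
    have h3 : ζ ^ (i + (l - m)) = 1 := by
      have := sub_eq_zero.mp h
      exact this
    have h4 := (hζ.pow_eq_one_iff_dvd _).mp h3
    obtain ⟨c, hc⟩ := h4
    have hc1 : c = 0 ∨ c = 1 ∨ 2 ≤ c := by omega
    rcases hc1 with rfl | rfl | hc2
    · simp at hc; omega
    · rw [mul_one] at hc; omega
    · have : l * 2 ≤ l * c := Nat.mul_le_mul_left l hc2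
      omega

theorem geom_one_aux {R : Type*} [CommRing R] {l : ℕ} {ζ : R}
    (hζ : ζ ^ l = 1) (m : ℕ) (hm : m < l) :
    ∑ k ∈ Finset.range l, (ζ ^ (m + (l - m))) ^ k = (l : R) := by
  have : m + (l - m) = l := by omega
  rw [this, hζ]
  simp

theorem symb_azumaya {R : Type*} [CommRing R] [IsDomain R] (l : ℕ) (hl : 0 < l) (ζ a b : R)
    (hζ : IsPrimitiveRoot ζ l) (hlu : IsUnit (l : R)) (ha : IsUnit a) (hb : IsUnit b) :
    IsAzumaya R (Symb R l ζ a b) := by
  classical
  obtain ⟨e, he⟩ := symb_basis l hl ζ a b hζ.pow_eq_one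
  obtain ⟨ua, hua⟩ := ha
  obtain ⟨ub, hub⟩ := hb
  obtain ⟨ul, hul⟩ := hlu
  haveI : Module.Free R (Symb R l ζ a b) := Module.Free.of_basis e
  haveI : Module.Finite R (Symb R l ζ a b) := Module.Finite.of_basis e
  set x := gx R l ζ a b with hx
  set y := gy R l ζ a b with hy
  have hyx : y * x = ζ • (x * y) := by
    rw [Algebra.smul_def]; exact gy_gx
  set xi : Symb R l ζ a b := (((ua⁻¹ : Rˣ) : R)) • x ^ (l - 1) with hxi
  set yi : Symb R l ζ a b := (((ub⁻¹ : Rˣ) : R)) • y ^ (l - 1) with hyi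
  have hxl : x ^ l = a • (1 : Symb R l ζ a b) := by
    rw [← Algebra.algebraMap_eq_smul_one]; exact gx_pow
  have hyl : y ^ l = b • (1 : Symb R l ζ a b) := by
    rw [← Algebra.algebraMap_eq_smul_one]; exact gy_pow
  have hll : l - 1 + 1 = l := by omega
  have xxi : x * xi = 1 := by
    rw [hxi, mul_smul_comm, ← pow_succ', hll, hxl, smul_smul, ← hua, Units.inv_mul, one_smul]
  have xix : xi * x = 1 := by
    rw [hxi, smul_mul_assoc, ← pow_succ, hll, hxl, smul_smul, ← hua, Units.inv_mul, one_smul]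
  have yyi : y * yi = 1 := by
    rw [hyi, mul_smul_comm, ← pow_succ', hll, hyl, smul_smul, ← hub, Units.inv_mul, one_smul]
  have yiy : yi * y = 1 := by
    rw [hyi, smul_mul_assoc, ← pow_succ, hll, hyl, smul_smul, ← hub, Units.inv_mul, one_smul]
  have hyjx : ∀ j : ℕ, y ^ j * x = ζ ^ j • (x * y ^ j) := by
    intro j
    induction j with
    | zero => simp
    | succ j ih =>
      rw [pow_succ', mul_assoc, ih, mul_smul_comm, ← mul_assoc, hyx, smul_mul_assoc, smul_smul,
        mul_assoc, ← pow_succ', ← pow_succ]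
  have hyxi : ∀ i : ℕ, y * x ^ i = ζ ^ i • (x ^ i * y) := by
    intro i
    induction i with
    | zero => simp
    | succ i ih =>
      rw [pow_succ, ← mul_assoc, ih, smul_mul_assoc, mul_assoc, hyx, mul_smul_comm, smul_smul,
        ← mul_assoc, ← pow_succ, ← pow_succ]
  -- the two conjugations
  let cx : Module.End R (Symb R l ζ a b) :=
    AlgHom.mulLeftRight R (Symb R l ζ a b) (xi ⊗ₜ MulOpposite.op x)
  let cy : Module.End R (Symb R l ζ a b) :=
    AlgHom.mulLeftRight R (Symb R l ζ a b) (y ⊗ₜ MulOpposite.op yi)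
  have hcx : ∀ i j : ℕ, cx (x ^ i * y ^ j) = ζ ^ j • (x ^ i * y ^ j) := by
    intro i j
    simp only [cx, AlgHom.mulLeftRight_apply, MulOpposite.unop_op]
    rw [mul_assoc, mul_assoc, hyjx, mul_smul_comm, mul_smul_comm, ← mul_assoc (x ^ i),
      ← pow_succ, pow_succ', mul_assoc x, ← mul_assoc xi, xix, one_mul]
  have hcy : ∀ i j : ℕ, cy (x ^ i * y ^ j) = ζ ^ i • (x ^ i * y ^ j) := by
    intro i j
    simp only [cy, AlgHom.mulLeftRight_apply, MulOpposite.unop_op]
    rw [← mul_assoc, hyxi, smul_mul_assoc, smul_mul_assoc, mul_assoc, mul_assoc, ← mul_assoc y,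
      ← pow_succ', pow_succ, mul_assoc (y ^ j), yyi, mul_one]
  have hcxk : ∀ i j k : ℕ, (cx ^ k) (x ^ i * y ^ j) = (ζ ^ j) ^ k • (x ^ i * y ^ j) := by
    intro i j k
    induction k with
    | zero => simp
    | succ k ih =>
      rw [pow_succ', Module.End.mul_apply, ih, map_smul, hcx, smul_smul, ← pow_succ]
  have hcyk : ∀ i j k : ℕ, (cy ^ k) (x ^ i * y ^ j) = (ζ ^ i) ^ k • (x ^ i * y ^ j) := by
    intro i j k
    induction k with
    | zero => simp
    | succ k ih =>
      rw [pow_succ', Module.End.mul_apply, ih, map_smul, hcy, smul_smul, ← pow_succ]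
  let Px : ℕ → Module.End R (Symb R l ζ a b) := fun m =>
    ∑ k ∈ Finset.range l, ((ζ ^ (l - m)) ^ k) • cx ^ k
  let Py : ℕ → Module.End R (Symb R l ζ a b) := fun m =>
    ∑ k ∈ Finset.range l, ((ζ ^ (l - m)) ^ k) • cy ^ k
  have hPx : ∀ i j m : ℕ, Px m (x ^ i * y ^ j) =
      (∑ k ∈ Finset.range l, (ζ ^ (j + (l - m))) ^ k) • (x ^ i * y ^ j) := by
    intro i j m
    simp only [Px, LinearMap.sum_apply, LinearMap.smul_apply, hcxk, Finset.sum_smul, smul_smul]
    refine Finset.sum_congr rfl fun k _ => ?_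
    congr 1
    rw [← mul_pow, ← pow_add, add_comm]
  have hPy : ∀ i j m : ℕ, Py m (x ^ i * y ^ j) =
      (∑ k ∈ Finset.range l, (ζ ^ (i + (l - m))) ^ k) • (x ^ i * y ^ j) := by
    intro i j m
    simp only [Py, LinearMap.sum_apply, LinearMap.smul_apply, hcyk, Finset.sum_smul, smul_smul]
    refine Finset.sum_congr rfl fun k _ => ?_
    congr 1
    rw [← mul_pow, ← pow_add, add_comm]
  have hmix : ∀ m : ℕ, xi ^ m * x ^ m = 1 := by
    intro m
    induction m with
    | zero => simp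
    | succ m ih =>
      rw [pow_succ, pow_succ', mul_assoc, ← mul_assoc xi, xix, one_mul, ih]
  have hmiy : ∀ m : ℕ, yi ^ m * y ^ m = 1 := by
    intro m
    induction m with
    | zero => simp
    | succ m ih =>
      rw [pow_succ, pow_succ', mul_assoc, ← mul_assoc yi, yiy, one_mul, ih]
  -- surjectivity
  have hT1 : ∀ u : Symb R l ζ a b ⊗[R] (Symb R l ζ a b)ᵐᵒᵖ,
      AlgHom.mulLeftRight R (Symb R l ζ a b) u ∈
        (AlgHom.mulLeftRight R (Symb R l ζ a b)).range := fun u => ⟨u, rfl⟩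
  have hPxT : ∀ m, Px m ∈ (AlgHom.mulLeftRight R (Symb R l ζ a b)).range := by
    intro m
    refine Subalgebra.sum_mem _ fun k _ => Subalgebra.smul_mem _ (Subalgebra.pow_mem _ (hT1 _) k) _
  have hPyT : ∀ m, Py m ∈ (AlgHom.mulLeftRight R (Symb R l ζ a b)).range := by
    intro m
    refine Subalgebra.sum_mem _ fun k _ => Subalgebra.smul_mem _ (Subalgebra.pow_mem _ (hT1 _) k) _
  have hsurj : Function.Surjective (AlgHom.mulLeftRight R (Symb R l ζ a b)) := by
    intro f
    have key : f = ∑ mn : Fin l × Fin l, ((((ul⁻¹ : Rˣ) : R)) * (((ul⁻¹ : Rˣ) : R))) •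
        (AlgHom.mulLeftRight R (Symb R l ζ a b)
          ((f (e mn) * (yi ^ (mn.2 : ℕ) * xi ^ (mn.1 : ℕ))) ⊗ₜ MulOpposite.op 1) *
          Px mn.2 * Py mn.1) := by
      refine e.ext fun ij => ?_
      simp only [LinearMap.sum_apply, LinearMap.smul_apply, Module.End.mul_apply]
      rw [Finset.sum_eq_single ij]
      · rw [he ij, hPy, geom_one_aux hζ.pow_eq_one _ ij.1.2, map_smul, hPx,
          geom_one_aux hζ.pow_eq_one _ ij.2.2, map_smul, map_smul, smul_smul, smul_smul]
        simp only [AlgHom.mulLeftRight_apply, MulOpposite.unop_op, mul_one]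
        have h1 : f (x ^ (ij.1 : ℕ) * y ^ (ij.2 : ℕ)) * (yi ^ (ij.2 : ℕ) * xi ^ (ij.1 : ℕ)) *
            (x ^ (ij.1 : ℕ) * y ^ (ij.2 : ℕ)) = f (x ^ (ij.1 : ℕ) * y ^ (ij.2 : ℕ)) := by
          rw [mul_assoc, mul_assoc (yi ^ (ij.2 : ℕ)), ← mul_assoc (xi ^ (ij.1 : ℕ)), hmix, one_mul,
            hmiy, mul_one]
        rw [h1, ← hul]
        have h2 : ((ul⁻¹ : Rˣ) : R) * ((ul⁻¹ : Rˣ) : R) * (ul : R) * (ul : R) = 1 := by
          rw [mul_assoc, mul_assoc, ← mul_assoc ((ul⁻¹ : Rˣ) : R) (ul : R) (ul : R),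
            Units.inv_mul, one_mul, Units.inv_mul]
        rw [h2, one_smul]
      · intro mn _ hne
        rw [he ij, hPy]
        by_cases h1 : (ij.1 : ℕ) = (mn.1 : ℕ)
        · have h2 : (ij.2 : ℕ) ≠ (mn.2 : ℕ) := by
            intro h2
            exact hne (Prod.ext (Fin.ext h1.symm) (Fin.ext h2.symm))
          rw [map_smul, hPx, geom_zero_aux hζ _ _ ij.2.2 mn.2.2 h2, zero_smul, smul_zero, map_zero,
            smul_zero]
        · rw [geom_zero_aux hζ _ _ ij.1.2 mn.1.2 h1, zero_smul, map_zero, map_zero, smul_zero]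
      · intro h
        exact absurd (Finset.mem_univ _) h
    have hmem : f ∈ (AlgHom.mulLeftRight R (Symb R l ζ a b)).range := by
      rw [key]
      refine Subalgebra.sum_mem _ fun mn _ => Subalgebra.smul_mem _
        (Subalgebra.mul_mem _ (Subalgebra.mul_mem _ (hT1 _) (hPxT _)) (hPyT _)) _
    obtain ⟨u, hu⟩ := hmem
    exact ⟨u, hu⟩
  have hinj : Function.Injective (AlgHom.mulLeftRight R (Symb R l ζ a b)) := by
    let b1 := e.tensorProduct (e.map (MulOpposite.opLinearEquiv R))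
    let b2 := e.linearMap e
    let φ := b1.equiv b2 (Equiv.refl _)
    have h1 : Function.Surjective
        ((AlgHom.mulLeftRight R (Symb R l ζ a b)).toLinearMap ∘ₗ φ.symm.toLinearMap) := by
      intro f
      obtain ⟨u, hu⟩ := hsurj f
      exact ⟨φ u, by simpa using hu⟩
    have h2 := OrzechProperty.injective_of_surjective_endomorphism _ h1
    intro u v huv
    have h3 : φ u = φ v := h2 (by simpa using huv)
    exact φ.injective h3
  exact
    { eq_of_smul_eq_smul := by
        intro r s h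
        have h1 := h (e (⟨0, hl⟩, ⟨0, hl⟩))
        have h2 := congrArg (fun v => e.repr v (⟨0, hl⟩, ⟨0, hl⟩)) h1
        simpa using h2
      bij := ⟨hinj, hsurj⟩ }

end Pool.Agent.Helper346.Bra
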