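import Pool.Agent.H47.L.R_seed8.Helper346.Bra.Defs
import Pool.Agent.H47.L.R_seed8.Helper346.Bra.SD

set_option autoImplicit false

open scoped TensorProduct

namespace Pool.Agent.Helper346.Bra



section moves

variable {K : Type*} [Field K] {A : Type*} [Ring A] [Algebra K A] {x y : A} {ζ : K}

theorem mv_yx_pow (h : y * x = ζ • (x * y)) (k : ℕ) : y * x ^ k = ζ ^ k • (x ^ k * y) := by
  induction k with
  | zero => simp
  | succ k ih =>
    rw [pow_succ x k, ← mul_assoc, ih, smul_mul_assoc, mul_assoc, h, mul_smul_comm, smul_smul,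
      ← pow_succ, mul_assoc]

theorem mv_y_pow_x (h : y * x = ζ • (x * y)) (k : ℕ) : y ^ k * x = ζ ^ k • (x * y ^ k) := by
  induction k with
  | zero => simp
  | succ k ih =>
    rw [pow_succ' y k, mul_assoc, ih, mul_smul_comm, ← mul_assoc, h, smul_mul_assoc, smul_smul,
      ← pow_succ, mul_assoc]

theorem mv_xy_pow (h : y * x = ζ • (x * y)) (k : ℕ) :
    (x * y) ^ k = ζ ^ (∑ i ∈ Finset.range k, i) • (x ^ k * y ^ k) := by
  induction k with
  | zero => simp
  | succ k ih =>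
    have h1 : x ^ k * y ^ k * (x * y) = ζ ^ k • (x ^ (k + 1) * y ^ (k + 1)) := by
      calc x ^ k * y ^ k * (x * y) = x ^ k * (y ^ k * x) * y := by noncomm_ring
        _ = x ^ k * (ζ ^ k • (x * y ^ k)) * y := by rw [mv_y_pow_x h]
        _ = ζ ^ k • (x ^ k * (x * y ^ k) * y) := by rw [mul_smul_comm, smul_mul_assoc]
        _ = ζ ^ k • (x ^ (k + 1) * y ^ (k + 1)) := by
          rw [pow_succ x k, pow_succ y k]; congr 1; noncomm_ring
    rw [pow_succ, ih, smul_mul_assoc, h1, smul_smul, ← pow_add, Finset.sum_range_succ]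

theorem mv_x_pow_y (hζ : ζ ≠ 0) (h : y * x = ζ • (x * y)) (k : ℕ) :
    x ^ k * y = (ζ⁻¹) ^ k • (y * x ^ k) := by
  rw [mv_yx_pow h, smul_smul, ← mul_pow, inv_mul_cancel₀ hζ, one_pow, one_smul]

open Polynomial in
theorem mv_norm_pow (hζ : ζ ≠ 0) (h : y * x = ζ • (x * y)) (k : ℕ) :
    ((1 - y) * x) ^ k =
      aeval y (∏ i ∈ Finset.range k, (1 - C ((ζ⁻¹) ^ i) * X : K[X])) * x ^ k := by
  induction k with
  | zero => simp
  | succ k ih =>
    have h1 : x ^ k * (1 - y) = (1 - (ζ⁻¹) ^ k • y) * x ^ k := by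
      rw [mul_sub, mul_one, mv_x_pow_y hζ h, sub_mul, one_mul, smul_mul_assoc]
    rw [pow_succ, ih, Finset.prod_range_succ, map_mul]
    have h2 : aeval y (1 - C ((ζ⁻¹) ^ k) * X : K[X]) = 1 - (ζ⁻¹) ^ k • y := by
      rw [map_sub, map_one, map_mul, aeval_C, aeval_X, Algebra.smul_def]
    rw [h2]
    calc (aeval y) (∏ i ∈ Finset.range k, (1 - C ((ζ⁻¹) ^ i) * X : K[X])) * x ^ k * ((1 - y) * x)
        = (aeval y) (∏ i ∈ Finset.range k, (1 - C ((ζ⁻¹) ^ i) * X : K[X])) *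
          (x ^ k * (1 - y)) * x := by simp only [mul_assoc]
      _ = _ := by rw [h1, pow_succ]; simp only [mul_assoc]

end moves

open Polynomial in
theorem mv_prod {K : Type*} [Field K] {ω : K} {l : ℕ} (hl : 0 < l) (hω : IsPrimitiveRoot ω l) :
    (∏ i ∈ Finset.range l, (1 - C (ω ^ i) * X : K[X])) = 1 - X ^ l := by
  have h1 : IsPrimitiveRoot (C ω : K[X]) l := hω.map_of_injective (f := (C : K →+* K[X])) C_injective
  have h2 := X_pow_sub_C_eq_prod h1 hl (α := (X : K[X])) (a := X ^ l) rfl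
  have h3 := congrArg (Polynomial.eval (1 : K[X])) h2
  rw [eval_prod] at h3
  simp only [eval_sub, eval_pow, eval_X, eval_C, one_pow] at h3
  rw [h3]
  refine Finset.prod_congr rfl fun i _ => ?_
  rw [map_pow]

theorem symb_moves {K : Type*} [Field K] (l : ℕ) (hl : Odd l) (ζ a b : K)
    (hζ : IsPrimitiveRoot ζ l) (hl0 : (l : K) ≠ 0) (ha : a ≠ 0) (hb : b ≠ 0) :
    Nonempty (Symb K l ζ a b ≃ₐ[K] Symb K l ζ b a⁻¹) ∧
    Nonempty (Symb K l ζ a b ≃ₐ[K] Symb K l ζ a (a * b)) ∧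
    (∀ c d : K, c ≠ 0 → d ≠ 0 →
      Nonempty (Symb K l ζ a b ≃ₐ[K] Symb K l ζ (a * c ^ l) (b * d ^ l))) ∧
    (1 - b ≠ 0 → Nonempty (Symb K l ζ a b ≃ₐ[K] Symb K l ζ (a * (1 - b)) b)) := by
  have hlp : 0 < l := hl.pos
  have hζ0 : ζ ≠ 0 := hζ.ne_zero hlp.ne'
  set x := gx K l ζ a b with hxdef
  set y := gy K l ζ a b with hydef
  have hx : x ^ l = algebraMap K _ a := gx_pow
  have hy : y ^ l = algebraMap K _ b := gy_pow
  have hyx0 : y * x = algebraMap K _ ζ * (x * y) := gy_gx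
  have hyx : y * x = ζ • (x * y) := by rw [hyx0, Algebra.smul_def]
  refine ⟨?_, ?_, ?_, ?_⟩
  · -- swap
    refine symb_iso l hlp ζ a b b a⁻¹ hζ hl0 ha hb hb (inv_ne_zero ha) y (a⁻¹ • x ^ (l - 1)) hy ?_ ?_
    · rw [smul_pow, ← pow_mul, mul_comm (l - 1) l, pow_mul, hx, ← map_pow, Algebra.smul_def,
        ← map_mul]
      congr 1
      obtain ⟨m, rfl⟩ : ∃ m, l = m + 1 := ⟨l - 1, by omega⟩
      rw [Nat.add_sub_cancel, pow_succ, mul_comm (a⁻¹ ^ m), mul_assoc, ← mul_pow,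
        inv_mul_cancel₀ ha, one_pow, mul_one]
    · rw [← Algebra.smul_def, mul_smul_comm, mv_yx_pow hyx, smul_mul_assoc, smul_smul, smul_smul]
      congr 1
      have : ζ * ζ ^ (l - 1) = 1 := by
        rw [← pow_succ', Nat.sub_add_cancel hlp]; exact hζ.pow_eq_one
      calc a⁻¹ = a⁻¹ * (ζ * ζ ^ (l - 1)) := by rw [this, mul_one]
        _ = _ := by ring
  · -- mul
    refine symb_iso l hlp ζ a b a (a * b) hζ hl0 ha hb ha (mul_ne_zero ha hb) x (x * y) hx ?_ ?_
    · rw [mv_xy_pow hyx]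
      have h1 : ζ ^ (∑ i ∈ Finset.range l, i) = 1 := by
        obtain ⟨m, hm⟩ := hl
        have h2 : (∑ i ∈ Finset.range l, i) = l * m := by
          rw [Finset.sum_range_id, hm]
          have : (2 * m + 1) * (2 * m + 1 - 1) = ((2 * m + 1) * m) * 2 := by
            rw [Nat.add_sub_cancel]; ring
          rw [this, Nat.mul_div_cancel _ (by norm_num)]
        rw [h2, pow_mul, hζ.pow_eq_one, one_pow]
      rw [h1, one_smul, hx, hy, map_mul]
    · rw [← Algebra.smul_def, mul_assoc, hyx, mul_smul_comm]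
  · -- scale
    intro c d hc hd
    refine symb_iso l hlp ζ a b _ _ hζ hl0 ha hb (mul_ne_zero ha (pow_ne_zero _ hc))
      (mul_ne_zero hb (pow_ne_zero _ hd)) (c • x) (d • y) ?_ ?_ ?_
    · rw [smul_pow, hx, Algebra.smul_def, ← map_mul, mul_comm]
    · rw [smul_pow, hy, Algebra.smul_def, ← map_mul, mul_comm]
    · rw [← Algebra.smul_def, smul_mul_smul_comm, smul_mul_smul_comm, hyx, smul_smul, smul_smul]
      congr 1
      ring
  · -- norm
    intro h1b
    refine symb_iso l hlp ζ a b _ _ hζ hl0 ha hb (mul_ne_zero ha h1b) hb ((1 - y) * x) y ?_ hy ?_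
    · rw [mv_norm_pow hζ0 hyx, mv_prod hlp (hζ.inv), map_sub, map_one, map_pow, Polynomial.aeval_X,
        hy, hx, ← map_one (algebraMap K (Symb K l ζ a b)), ← map_sub, ← map_mul, mul_comm]
    · rw [← Algebra.smul_def]
      calc y * ((1 - y) * x) = (1 - y) * (y * x) := by noncomm_ring
        _ = ζ • ((1 - y) * x * y) := by rw [hyx, mul_smul_comm, mul_assoc]

end Pool.Agent.Helper346.Bra
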