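import Mathlib

set_option autoImplicit false

open scoped TensorProduct

namespace Pool.Agent.Helper346.Bra

/-- The `K`-algebra `A` is split: it is isomorphic to a matrix algebra over `K`. -/
def IsSplit (K A : Type*) [Field K] [Ring A] [Algebra K A] : Prop :=
  ∃ n : ℕ, Nonempty (A ≃ₐ[K] Matrix (Fin n) (Fin n) K)

/-- The central simple `K`-algebra `A` is unramified at the valuation ring `R` of `K`: it is the
generic fibre of an Azumaya algebra over `R`. -/
def UnramifiedAt {K : Type} [Field K] (R : ValuationSubring K) (A : Type) [Ring A]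
    [Algebra K A] : Prop :=
  ∃ (B : Type) (_ : Ring B) (_ : Algebra R B), IsAzumaya R B ∧ Nonempty (K ⊗[R] B ≃ₐ[K] A)

/-- The unramified Brauer group of the field `K` over its subfield `k` has an element of order
three: there is a central simple algebra `A` over `K`, not split, with `A ⊗ A ⊗ A` split, which is
unramified at every discrete valuation ring of `K` that contains `k`. -/
def HasUnramifiedOrderThree (k K : Type) [Field k] [Field K] [Algebra k K] : Prop :=
  ∃ (A : Type) (_ : Ring A) (_ : Algebra K A),
    Algebra.IsCentral K A ∧ IsSimpleRing A ∧ FiniteDimensional K A ∧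
    ¬ IsSplit K A ∧ IsSplit K (A ⊗[K] (A ⊗[K] A)) ∧
    ∀ R : ValuationSubring K, IsDiscreteValuationRing R → (∀ c : k, algebraMap k K c ∈ R) →
      UnramifiedAt R A

/-- The homogeneous cubic form `F` in four variables over `k` defines a smooth cubic surface:
over every extension field the form and its first order derivatives have no common nontrivial zero. -/
def IsSmoothCubic (k : Type) [Field k] (F : MvPolynomial (Fin 4) k) : Prop :=
  F.IsHomogeneous 3 ∧
    ∀ (Ω : Type) [Field Ω] [Algebra k Ω] (x : Fin 4 → Ω), x ≠ 0 → MvPolynomial.aeval x F = 0 →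
      ∃ i, MvPolynomial.aeval x (MvPolynomial.pderiv i F) ≠ 0

/-- The coordinate ring of the affine part `x₃ = 1` of the projective surface `F = 0`. -/
abbrev affRing (k : Type) [Field k] (F : MvPolynomial (Fin 4) k) : Type :=
  MvPolynomial (Fin 3) k ⧸ Ideal.span {MvPolynomial.aeval
    (![MvPolynomial.X 0, MvPolynomial.X 1, MvPolynomial.X 2, 1] :
      Fin 4 → MvPolynomial (Fin 3) k) F}

end Pool.Agent.Helper346.Bra
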